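import Mathlib

set_option autoImplicit false

namespace Pool.Agent.Results.MP_3faef8_co.DisjointUnion

open Finset

/-- A graph is nice if none of its connected components is isomorphic to the complete
graph on two vertices. -/
def IsNice {V : Type} (G : SimpleGraph V) : Prop :=
  ∀ c : G.ConnectedComponent, IsEmpty (c.toSimpleGraph ≃g (⊤ : SimpleGraph (Fin 2)))

/-- The sum of the labels of the edges at the vertex `v`. -/
noncomputable def vertexSum {V : Type} [Fintype V] (G : SimpleGraph V) (l : Sym2 V → ℕ)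
    (v : V) : ℕ :=
  open Classical in ∑ u ∈ univ.filter (fun u => G.Adj v u), l s(v, u)

/-- The number of edges of `G` with label `i`. -/
noncomputable def nb {V : Type} (G : SimpleGraph V) (l : Sym2 V → ℕ) (i : ℕ) : ℕ :=
  Set.ncard {e : Sym2 V | e ∈ G.edgeSet ∧ l e = i}

/-- `G` has a proper `k`-labelling that is equitable: the edge labels lie in `{1, …, k}`,
adjacent vertices have different sums, and any two labels that are used are used
almost equally often. -/
def HasEquitableProperLabelling {V : Type} [Fintype V] (G : SimpleGraph V) (k : ℕ) : Prop :=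
  ∃ l : Sym2 V → ℕ,
    (∀ e ∈ G.edgeSet, 1 ≤ l e ∧ l e ≤ k) ∧
    (∀ u v : V, G.Adj u v → vertexSum G l u ≠ vertexSum G l v) ∧
    (∀ i j : ℕ, 0 < nb G l i → 0 < nb G l j → nb G l i ≤ nb G l j + 1)

/-- The disjoint union of `a` triangles and `k` complete graphs on four vertices. -/
def unionGraph (a k : ℕ) : SimpleGraph ((Fin a × Fin 3) ⊕ (Fin k × Fin 4)) where
  Adj
    | .inl (i, x), .inl (j, y) => i = j ∧ x ≠ y
    | .inr (i, x), .inr (j, y) => i = j ∧ x ≠ y
    | _, _ => False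
  symm := ⟨by
    rintro (⟨i, x⟩ | ⟨i, x⟩) (⟨j, y⟩ | ⟨j, y⟩) h
    · exact ⟨h.1.symm, h.2.symm⟩
    · exact h
    · exact h
    · exact ⟨h.1.symm, h.2.symm⟩⟩
  loopless := ⟨by
    rintro (⟨i, x⟩ | ⟨i, x⟩) h
    · exact h.2 rfl
    · exact h.2 rfl⟩

theorem adj_inl {a k : ℕ} (i j : Fin a) (x y : Fin 3) :
    (unionGraph a k).Adj (.inl (i, x)) (.inl (j, y)) ↔ i = j ∧ x ≠ y := Iff.rfl

theorem adj_inr {a k : ℕ} (i j : Fin k) (x y : Fin 4) :
    (unionGraph a k).Adj (.inr (i, x)) (.inr (j, y)) ↔ i = j ∧ x ≠ y := Iff.rfl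

theorem adj_lr {a k : ℕ} (p : Fin a × Fin 3) (q : Fin k × Fin 4) :
    ¬ (unionGraph a k).Adj (.inl p) (.inr q) := fun h => h

theorem adj_rl {a k : ℕ} (p : Fin k × Fin 4) (q : Fin a × Fin 3) :
    ¬ (unionGraph a k).Adj (.inr p) (.inl q) := fun h => h

theorem vertexSum_inl {a k : ℕ} (l : Sym2 ((Fin a × Fin 3) ⊕ (Fin k × Fin 4)) → ℕ)
    (i : Fin a) (x : Fin 3) :
    vertexSum (unionGraph a k) l (.inl (i, x)) =
      ∑ y : Fin 3, if x ≠ y then l s(.inl (i, x), .inl (i, y)) else 0 := by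
  classical
  unfold vertexSum
  rw [sum_filter, Fintype.sum_sum_type, Fintype.sum_prod_type]
  have h0 : ∑ q : Fin k × Fin 4, (if (unionGraph a k).Adj (.inl (i, x)) (.inr q) then
      l s(.inl (i, x), .inr q) else 0) = 0 := by
    apply Finset.sum_eq_zero
    intro q _
    rw [if_neg (adj_lr _ _)]
  rw [h0, add_zero, Finset.sum_eq_single i]
  · apply Finset.sum_congr rfl
    intro y _
    simp only [adj_inl, true_and]
  · intro j _ hj
    apply Finset.sum_eq_zero
    intro y _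
    rw [if_neg]
    rw [adj_inl]
    exact fun h => hj h.1.symm
  · intro h
    exact absurd (Finset.mem_univ i) h

theorem vertexSum_inr {a k : ℕ} (l : Sym2 ((Fin a × Fin 3) ⊕ (Fin k × Fin 4)) → ℕ)
    (i : Fin k) (x : Fin 4) :
    vertexSum (unionGraph a k) l (.inr (i, x)) =
      ∑ y : Fin 4, if x ≠ y then l s(.inr (i, x), .inr (i, y)) else 0 := by
  classical
  unfold vertexSum
  rw [sum_filter, Fintype.sum_sum_type, Fintype.sum_prod_type]
  have h0 : ∑ q : Fin a, ∑ y : Fin 3, (if (unionGraph a k).Adj (.inr (i, x)) (.inl (q, y)) then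
      l s(.inr (i, x), .inl (q, y)) else 0) = 0 := by
    apply Finset.sum_eq_zero
    intro q _
    apply Finset.sum_eq_zero
    intro y _
    rw [if_neg (adj_rl _ _)]
  rw [h0, zero_add, Fintype.sum_prod_type, Finset.sum_eq_single i]
  · apply Finset.sum_congr rfl
    intro y _
    simp only [adj_inr, true_and]
  · intro j _ hj
    apply Finset.sum_eq_zero
    intro y _
    rw [if_neg]
    rw [adj_inr]
    exact fun h => hj h.1.symm
  · intro h
    exact absurd (Finset.mem_univ i) h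

/-- The three edges of a triangle. -/
def e3 : Fin 3 → Fin 3 × Fin 3 := ![(0, 1), (0, 2), (1, 2)]

/-- The six edges of a complete graph on four vertices. -/
def e4 : Fin 6 → Fin 4 × Fin 4 := ![(0, 1), (0, 2), (0, 3), (1, 2), (1, 3), (2, 3)]

/-- All edges of the disjoint union. -/
def edge (a k : ℕ) : (Fin a × Fin 3) ⊕ (Fin k × Fin 6) → Sym2 ((Fin a × Fin 3) ⊕ (Fin k × Fin 4))
  | .inl (i, t) => s(.inl (i, (e3 t).1), .inl (i, (e3 t).2))
  | .inr (i, t) => s(.inr (i, (e4 t).1), .inr (i, (e4 t).2))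

theorem e3_inj : ∀ s t : Fin 3, ((e3 s).1 = (e3 t).1 ∧ (e3 s).2 = (e3 t).2) ∨
    ((e3 s).1 = (e3 t).2 ∧ (e3 s).2 = (e3 t).1) → s = t := by decide

theorem e4_inj : ∀ s t : Fin 6, ((e4 s).1 = (e4 t).1 ∧ (e4 s).2 = (e4 t).2) ∨
    ((e4 s).1 = (e4 t).2 ∧ (e4 s).2 = (e4 t).1) → s = t := by decide

theorem e3_surj : ∀ x y : Fin 3, x ≠ y → ∃ t, ((e3 t).1 = x ∧ (e3 t).2 = y) ∨
    ((e3 t).1 = y ∧ (e3 t).2 = x) := by decide

theorem e4_surj : ∀ x y : Fin 4, x ≠ y → ∃ t, ((e4 t).1 = x ∧ (e4 t).2 = y) ∨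
    ((e4 t).1 = y ∧ (e4 t).2 = x) := by decide

theorem e3_ne : ∀ t : Fin 3, (e3 t).1 ≠ (e3 t).2 := by decide

theorem e4_ne : ∀ t : Fin 6, (e4 t).1 ≠ (e4 t).2 := by decide

theorem edge_injective (a k : ℕ) : Function.Injective (edge a k) := by
  rintro (⟨i, s⟩ | ⟨i, s⟩) (⟨j, t⟩ | ⟨j, t⟩) h
  · simp only [edge, Sym2.eq_iff, Sum.inl.injEq, Prod.mk.injEq] at h
    have hij : i = j := by rcases h with h | h <;> exact h.1.1
    have hst : s = t := by
      apply e3_inj
      rcases h with h | h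
      · exact Or.inl ⟨h.1.2, h.2.2⟩
      · exact Or.inr ⟨h.1.2, h.2.2⟩
    rw [hij, hst]
  · simp [edge] at h
  · simp [edge] at h
  · simp only [edge, Sym2.eq_iff, Sum.inr.injEq, Prod.mk.injEq] at h
    have hij : i = j := by rcases h with h | h <;> exact h.1.1
    have hst : s = t := by
      apply e4_inj
      rcases h with h | h
      · exact Or.inl ⟨h.1.2, h.2.2⟩
      · exact Or.inr ⟨h.1.2, h.2.2⟩
    rw [hij, hst]

theorem range_edge (a k : ℕ) : Set.range (edge a k) = (unionGraph a k).edgeSet := by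
  ext e
  constructor
  · rintro ⟨⟨i, t⟩ | ⟨i, t⟩, rfl⟩
    · exact ⟨rfl, e3_ne t⟩
    · exact ⟨rfl, e4_ne t⟩
  · induction e with
    | _ u v =>
      intro h
      rw [SimpleGraph.mem_edgeSet] at h
      rcases u with ⟨i, x⟩ | ⟨i, x⟩ <;> rcases v with ⟨j, y⟩ | ⟨j, y⟩
      · rw [adj_inl] at h
        obtain ⟨rfl, hxy⟩ := h
        obtain ⟨t, ⟨h1, h2⟩ | ⟨h1, h2⟩⟩ := e3_surj x y hxy
        · exact ⟨.inl (i, t), by simp only [edge, h1, h2]⟩
        · exact ⟨.inl (i, t), by simp only [edge, h1, h2]; exact Sym2.eq_swap⟩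
      · exact absurd h (adj_lr _ _)
      · exact absurd h (adj_rl _ _)
      · rw [adj_inr] at h
        obtain ⟨rfl, hxy⟩ := h
        obtain ⟨t, ⟨h1, h2⟩ | ⟨h1, h2⟩⟩ := e4_surj x y hxy
        · exact ⟨.inr (i, t), by simp only [edge, h1, h2]⟩
        · exact ⟨.inr (i, t), by simp only [edge, h1, h2]; exact Sym2.eq_swap⟩

theorem nb_eq (a k : ℕ) (l : Sym2 ((Fin a × Fin 3) ⊕ (Fin k × Fin 4)) → ℕ) (c : ℕ) :
    nb (unionGraph a k) l c =
      ∑ i : Fin a, (∑ t : Fin 3, if l (edge a k (.inl (i, t))) = c then 1 else 0) +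
      ∑ i : Fin k, (∑ t : Fin 6, if l (edge a k (.inr (i, t))) = c then 1 else 0) := by
  classical
  unfold nb
  have h1 : {e | e ∈ (unionGraph a k).edgeSet ∧ l e = c} = edge a k '' {p | l (edge a k p) = c} := by
    ext e
    constructor
    · rintro ⟨he, hc⟩
      rw [← range_edge] at he
      obtain ⟨p, rfl⟩ := he
      exact ⟨p, hc, rfl⟩
    · rintro ⟨p, hp, rfl⟩
      refine ⟨?_, hp⟩
      rw [← range_edge]
      exact ⟨p, rfl⟩
  rw [h1, Set.ncard_image_of_injective _ (edge_injective a k), Set.ncard_eq_toFinset_card']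
  rw [Set.toFinset_ofPred, Finset.card_filter, Fintype.sum_sum_type, Fintype.sum_prod_type,
    Fintype.sum_prod_type]

theorem local3 : ∀ a b c : Fin 3, a ≠ b → a ≠ c → b ≠ c → ∀ d : Fin 3,
    (if a = d then 1 else 0) + (if b = d then 1 else 0) + (if c = d then 1 else 0) = 1 := by
  decide +kernel

/-- In a proper labelling of a complete graph on four vertices, the label in the middle is
used an odd number of times and the two other labels are used. -/
theorem local4 : ∀ a b c d e f : Fin 3,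
    a.val + b.val + c.val ≠ a.val + d.val + e.val →
    a.val + b.val + c.val ≠ b.val + d.val + f.val →
    a.val + b.val + c.val ≠ c.val + e.val + f.val →
    a.val + d.val + e.val ≠ b.val + d.val + f.val →
    a.val + d.val + e.val ≠ c.val + e.val + f.val →
    b.val + d.val + f.val ≠ c.val + e.val + f.val →
    ((if a = 1 then 1 else 0) + (if b = 1 then 1 else 0) + (if c = 1 then 1 else 0) +
      (if d = 1 then 1 else 0) + (if e = 1 then 1 else 0) + (if f = 1 then 1 else 0)) % 2 = 1 ∧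
    0 < (if a = 0 then 1 else 0) + (if b = 0 then 1 else 0) + (if c = 0 then 1 else 0) +
      (if d = 0 then 1 else 0) + (if e = 0 then 1 else 0) + (if f = 0 then 1 else 0) ∧
    0 < (if a = 2 then 1 else 0) + (if b = 2 then 1 else 0) + (if c = 2 then 1 else 0) +
      (if d = 2 then 1 else 0) + (if e = 2 then 1 else 0) + (if f = 2 then 1 else 0) := by
  decide +kernel

theorem total3 : ∀ a : Fin 3,
    (if a = 0 then 1 else 0) + (if a = 1 then 1 else 0) + (if a = 2 then 1 else 0) = 1 := by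
  decide

theorem sums3 {a k : ℕ} (l : Sym2 ((Fin a × Fin 3) ⊕ (Fin k × Fin 4)) → ℕ) (i : Fin a) :
    vertexSum (unionGraph a k) l (.inl (i, 0)) =
      l (edge a k (.inl (i, 0))) + l (edge a k (.inl (i, 1))) ∧
    vertexSum (unionGraph a k) l (.inl (i, 1)) =
      l (edge a k (.inl (i, 0))) + l (edge a k (.inl (i, 2))) ∧
    vertexSum (unionGraph a k) l (.inl (i, 2)) =
      l (edge a k (.inl (i, 1))) + l (edge a k (.inl (i, 2))) := by
  have h10 : s(Sum.inl (i, 1), Sum.inl (i, 0)) =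
      (s(Sum.inl (i, 0), Sum.inl (i, 1)) : Sym2 ((Fin a × Fin 3) ⊕ (Fin k × Fin 4))) :=
    Sym2.eq_swap
  have h20 : s(Sum.inl (i, 2), Sum.inl (i, 0)) =
      (s(Sum.inl (i, 0), Sum.inl (i, 2)) : Sym2 ((Fin a × Fin 3) ⊕ (Fin k × Fin 4))) :=
    Sym2.eq_swap
  have h21 : s(Sum.inl (i, 2), Sum.inl (i, 1)) =
      (s(Sum.inl (i, 1), Sum.inl (i, 2)) : Sym2 ((Fin a × Fin 3) ⊕ (Fin k × Fin 4))) :=
    Sym2.eq_swap
  refine ⟨?_, ?_, ?_⟩ <;> rw [vertexSum_inl] <;>
    simp [Fin.sum_univ_three, edge, e3, h10, h20, h21]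

theorem sums4 {a k : ℕ} (l : Sym2 ((Fin a × Fin 3) ⊕ (Fin k × Fin 4)) → ℕ) (i : Fin k) :
    vertexSum (unionGraph a k) l (.inr (i, 0)) =
      l (edge a k (.inr (i, 0))) + l (edge a k (.inr (i, 1))) + l (edge a k (.inr (i, 2))) ∧
    vertexSum (unionGraph a k) l (.inr (i, 1)) =
      l (edge a k (.inr (i, 0))) + l (edge a k (.inr (i, 3))) + l (edge a k (.inr (i, 4))) ∧
    vertexSum (unionGraph a k) l (.inr (i, 2)) =
      l (edge a k (.inr (i, 1))) + l (edge a k (.inr (i, 3))) + l (edge a k (.inr (i, 5))) ∧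
    vertexSum (unionGraph a k) l (.inr (i, 3)) =
      l (edge a k (.inr (i, 2))) + l (edge a k (.inr (i, 4))) + l (edge a k (.inr (i, 5))) := by
  have h : ∀ x y : Fin 4, s(Sum.inr (i, x), Sum.inr (i, y)) =
      (s(Sum.inr (i, y), Sum.inr (i, x)) : Sym2 ((Fin a × Fin 3) ⊕ (Fin k × Fin 4))) :=
    fun _ _ => Sym2.eq_swap
  refine ⟨?_, ?_, ?_, ?_⟩ <;> rw [vertexSum_inr] <;>
    simp [Fin.sum_univ_four, edge, e4, h 1 0, h 2 0, h 3 0, h 2 1, h 3 1, h 3 2]

theorem no_labelling (a k : ℕ) (hk : Odd k) (j : ℕ) (hj : j ≤ 3) :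
    ¬ HasEquitableProperLabelling (unionGraph a k) j := by
  rintro ⟨l, hl, hprop, heq⟩
  have hmem : ∀ p, edge a k p ∈ (unionGraph a k).edgeSet := by
    intro p
    rw [← range_edge]
    exact ⟨p, rfl⟩
  have hg : ∃ g : ((Fin a × Fin 3) ⊕ (Fin k × Fin 6)) → Fin 3,
      ∀ p, l (edge a k p) = (g p).val + 1 := by
    refine ⟨fun p => ⟨l (edge a k p) - 1, ?_⟩, ?_⟩
    · have := hl _ (hmem p)
      omega
    · intro p
      have := hl _ (hmem p)
      simp only
      omega
  obtain ⟨g, hg⟩ := hg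
  -- the numbers of edges with each label
  have hnb : ∀ c : Fin 3, nb (unionGraph a k) l (c.val + 1) =
      ∑ i : Fin a, (∑ t : Fin 3, if g (.inl (i, t)) = c then 1 else 0) +
      ∑ i : Fin k, (∑ t : Fin 6, if g (.inr (i, t)) = c then 1 else 0) := by
    intro c
    rw [nb_eq]
    congr 1
    · apply Finset.sum_congr rfl
      intro i _
      apply Finset.sum_congr rfl
      intro t _
      rw [hg]
      congr 1
      rw [eq_iff_iff, Fin.ext_iff]
      omega
    · apply Finset.sum_congr rfl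
      intro i _
      apply Finset.sum_congr rfl
      intro t _
      rw [hg]
      congr 1
      rw [eq_iff_iff, Fin.ext_iff]
      omega
  -- triangles
  have htri : ∀ (c : Fin 3) (i : Fin a),
      (∑ t : Fin 3, if g (.inl (i, t)) = c then 1 else 0) = 1 := by
    intro c i
    have hs := sums3 (a := a) (k := k) l i
    have p01 := hprop (.inl (i, 0)) (.inl (i, 1)) ⟨rfl, by decide⟩
    have p02 := hprop (.inl (i, 0)) (.inl (i, 2)) ⟨rfl, by decide⟩
    have p12 := hprop (.inl (i, 1)) (.inl (i, 2)) ⟨rfl, by decide⟩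
    rw [hs.1, hs.2.1] at p01
    rw [hs.1, hs.2.2] at p02
    rw [hs.2.1, hs.2.2] at p12
    rw [Fin.sum_univ_three]
    apply local3
    · intro h
      apply p12
      rw [hg, hg, hg, h]
    · intro h
      apply p02
      rw [hg, hg, hg, h]
      omega
    · intro h
      apply p01
      rw [hg, hg, hg, h]
  -- complete graphs on four vertices
  have hK : ∀ i : Fin k,
      (∑ t : Fin 6, if g (.inr (i, t)) = 1 then 1 else 0) % 2 = 1 ∧
      0 < (∑ t : Fin 6, if g (.inr (i, t)) = 0 then 1 else 0) ∧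
      0 < (∑ t : Fin 6, if g (.inr (i, t)) = 2 then 1 else 0) := by
    intro i
    have hs := sums4 (a := a) (k := k) l i
    have p01 := hprop (.inr (i, 0)) (.inr (i, 1)) ⟨rfl, by decide⟩
    have p02 := hprop (.inr (i, 0)) (.inr (i, 2)) ⟨rfl, by decide⟩
    have p03 := hprop (.inr (i, 0)) (.inr (i, 3)) ⟨rfl, by decide⟩
    have p12 := hprop (.inr (i, 1)) (.inr (i, 2)) ⟨rfl, by decide⟩
    have p13 := hprop (.inr (i, 1)) (.inr (i, 3)) ⟨rfl, by decide⟩
    have p23 := hprop (.inr (i, 2)) (.inr (i, 3)) ⟨rfl, by decide⟩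
    rw [hs.1, hs.2.1] at p01
    rw [hs.1, hs.2.2.1] at p02
    rw [hs.1, hs.2.2.2] at p03
    rw [hs.2.1, hs.2.2.1] at p12
    rw [hs.2.1, hs.2.2.2] at p13
    rw [hs.2.2.1, hs.2.2.2] at p23
    simp only [hg] at p01 p02 p03 p12 p13 p23
    rw [Fin.sum_univ_six, Fin.sum_univ_six, Fin.sum_univ_six]
    apply local4
    · intro h; apply p01; omega
    · intro h; apply p02; omega
    · intro h; apply p03; omega
    · intro h; apply p12; omega
    · intro h; apply p13; omega
    · intro h; apply p23; omega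
  have h1 := hnb 0
  have h2 := hnb 1
  have h3 := hnb 2
  simp only [htri, Finset.sum_const, Finset.card_univ, Fintype.card_fin, smul_eq_mul,
    mul_one] at h1 h2 h3
  have hv0 : (0 : Fin 3).val + 1 = 1 := rfl
  have hv1 : (1 : Fin 3).val + 1 = 2 := rfl
  have hv2 : (2 : Fin 3).val + 1 = 3 := rfl
  rw [hv0] at h1
  rw [hv1] at h2
  rw [hv2] at h3
  -- total number of edges
  have htot : (∑ i : Fin k, ∑ t : Fin 6, if g (.inr (i, t)) = 0 then 1 else 0) +
      (∑ i : Fin k, ∑ t : Fin 6, if g (.inr (i, t)) = 1 then 1 else 0) +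
      (∑ i : Fin k, ∑ t : Fin 6, if g (.inr (i, t)) = 2 then 1 else 0) = 6 * k := by
    rw [← Finset.sum_add_distrib, ← Finset.sum_add_distrib]
    have : ∀ i : Fin k, ((∑ t : Fin 6, if g (.inr (i, t)) = 0 then 1 else 0) +
        (∑ t : Fin 6, if g (.inr (i, t)) = 1 then 1 else 0) +
        (∑ t : Fin 6, if g (.inr (i, t)) = 2 then 1 else 0)) = 6 := by
      intro i
      rw [← Finset.sum_add_distrib, ← Finset.sum_add_distrib]
      simp only [total3, Finset.sum_const, Finset.card_univ, Fintype.card_fin, smul_eq_mul,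
        mul_one]
    simp only [this, Finset.sum_const, Finset.card_univ, Fintype.card_fin, smul_eq_mul]
    ring
  have hodd : (∑ i : Fin k, ∑ t : Fin 6, if g (.inr (i, t)) = 1 then 1 else 0) % 2 = 1 := by
    rw [Finset.sum_nat_mod]
    simp only [(hK _).1, Finset.sum_const, Finset.card_univ, Fintype.card_fin, smul_eq_mul,
      mul_one]
    exact Nat.odd_iff.mp hk
  have i0 : Fin k := ⟨0, hk.pos⟩
  have hp0 : 0 < ∑ i : Fin k, ∑ t : Fin 6, if g (.inr (i, t)) = 0 then 1 else 0 :=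
    Finset.sum_pos (fun i _ => (hK i).2.1) ⟨i0, Finset.mem_univ _⟩
  have hp2 : 0 < ∑ i : Fin k, ∑ t : Fin 6, if g (.inr (i, t)) = 2 then 1 else 0 :=
    Finset.sum_pos (fun i _ => (hK i).2.2) ⟨i0, Finset.mem_univ _⟩
  generalize (∑ i : Fin k, ∑ t : Fin 6, if g (.inr (i, t)) = 0 then 1 else 0) = A at *
  generalize (∑ i : Fin k, ∑ t : Fin 6, if g (.inr (i, t)) = 1 then 1 else 0) = B at *
  generalize (∑ i : Fin k, ∑ t : Fin 6, if g (.inr (i, t)) = 2 then 1 else 0) = C at *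
  have e12 := heq 1 2 (by omega) (by omega)
  have e21 := heq 2 1 (by omega) (by omega)
  have e13 := heq 1 3 (by omega) (by omega)
  have e31 := heq 3 1 (by omega) (by omega)
  have e23 := heq 2 3 (by omega) (by omega)
  have e32 := heq 3 2 (by omega) (by omega)
  omega

theorem nice (a k : ℕ) : IsNice (unionGraph a k) := by
  intro c
  constructor
  intro φ
  -- every vertex has two distinct neighbours
  obtain ⟨v, hv⟩ := c.nonempty_supp
  have key : ∃ u w : (Fin a × Fin 3) ⊕ (Fin k × Fin 4), (unionGraph a k).Adj v u ∧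
      (unionGraph a k).Adj v w ∧ u ≠ w := by
    rcases v with ⟨i, x⟩ | ⟨i, x⟩
    · have : ∀ x : Fin 3, ∃ y z : Fin 3, x ≠ y ∧ x ≠ z ∧ y ≠ z := by decide
      obtain ⟨y, z, h1, h2, h3⟩ := this x
      refine ⟨.inl (i, y), .inl (i, z), ⟨rfl, h1⟩, ⟨rfl, h2⟩, ?_⟩
      simpa using h3
    · have : ∀ x : Fin 4, ∃ y z : Fin 4, x ≠ y ∧ x ≠ z ∧ y ≠ z := by decide
      obtain ⟨y, z, h1, h2, h3⟩ := this x
      refine ⟨.inr (i, y), .inr (i, z), ⟨rfl, h1⟩, ⟨rfl, h2⟩, ?_⟩
      simpa using h3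
  obtain ⟨u, w, hu, hw, huw⟩ := key
  have hu' : u ∈ c.supp := c.mem_supp_of_adj_mem_supp hv hu
  have hw' : w ∈ c.supp := c.mem_supp_of_adj_mem_supp hv hw
  have d1 : φ ⟨v, hv⟩ ≠ φ ⟨u, hu'⟩ := fun h => hu.ne (congrArg Subtype.val (φ.injective h))
  have d2 : φ ⟨v, hv⟩ ≠ φ ⟨w, hw'⟩ := fun h => hw.ne (congrArg Subtype.val (φ.injective h))
  have d3 : φ ⟨u, hu'⟩ ≠ φ ⟨w, hw'⟩ := fun h => huw (congrArg Subtype.val (φ.injective h))
  have : ∀ x y z : Fin 2, x ≠ y → x ≠ z → y ≠ z → False := by decide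
  exact this _ _ _ d1 d2 d3

/-- For all `a` and all odd `k` with `(a, k) ≠ (0, 1)`, the disjoint union of `a` triangles and
`k` copies of `K₄` is a nice graph other than `K₄` without an equitable proper `3`-labelling. -/
theorem result (a k : ℕ) (hk : Odd k) (hak : ¬ (a = 0 ∧ k = 1)) :
    IsNice (unionGraph a k) ∧
    IsEmpty (unionGraph a k ≃g (⊤ : SimpleGraph (Fin 4))) ∧
    ∀ j ≤ 3, ¬ HasEquitableProperLabelling (unionGraph a k) j := by
  refine ⟨nice a k, ⟨fun φ => ?_⟩, no_labelling a k hk⟩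
  have h := Fintype.card_congr φ.toEquiv
  simp only [Fintype.card_sum, Fintype.card_prod, Fintype.card_fin] at h
  have := hk.pos
  omega

end Pool.Agent.Results.MP_3faef8_co.DisjointUnion
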